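import Pool.Agent.X12.Szp10

/-!
# The violators of Frey's inequality with slope `lam` among all semistable elliptic curves over `ℚ`

Frey's inequality says `h_F(A) ≤ (n / 2 + ε) log N_A + c` for the abelian varieties `A` over `ℚ` of
dimension `n`.  We consider `n = 1`, ALL semistable elliptic curves `E` over `ℚ` (no condition on the
torsion or on the discriminant), and an arbitrary slope `lam` in place of `1 / 2 + ε`.  There are
`B ^ (10 + o(1))` such curves with `h_F(E) ≤ log B`.  Among them, the number of the violators of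
`h_F(E) ≤ lam log N_E + c` is

* `B ^ (1 / lam - 2 + o(1))` for every `1 / 12 ≤ lam ≤ 1 / 10` and every real `c`; in particular the
  proportion of the violators is `B ^ (- (12 - 1 / lam) + o(1))`, so that `1 / 12` is the generic slope;
* at least `B ^ (1 / lam - 2 - ε)` for every `1 / 12 ≤ lam < 1 / 2` (the exponent `1 / lam - 2` vanishes
  exactly at Frey's slope `1 / 2`), and at most `C B ^ (8 + ε)` for every `lam ≥ 1 / 10`.

The proof bounds, for every `X` and `Z`, the number of the semistable curves with naive height about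
`X ^ 6` and conductor at most `Z` by `X ^ ε (Z / X + X ^ 4)`: the quotient `Δ / N` is large, so that
`d rad d` divides `c₄³ - c₆²` for some `d ≤ X²` which is not small, or `c₄³ - c₆²` is divisible by the
square of a prime larger than `X²`; in the first case `c₆` lies, for given `c₄` and `d`, in few residue
classes modulo `d rad d` and in a short interval, and in the second case `(c₆, p)` is a point of a
conic in a box.
-/

set_option autoImplicit false

namespace Pool.Agent.Results.MP_c59389_nt.AllSemistableByHeight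

open Filter Topology

/-- the product of the primes dividing `Δ(W)` (the conductor if `gcd(c₄, Δ) = 1`) -/
def conductor (W : WeierstrassCurve ℤ) : ℕ := ∏ p ∈ W.Δ.natAbs.primeFactors, p

/-- the modular invariant `j(τ) = E₄(τ) ^ 3 / Δ(τ) = 1 / q + 744 + ⋯` -/
noncomputable def jInv (τ : UpperHalfPlane) : ℂ :=
  ModularForm.E₄ τ ^ 3 / ModularForm.discriminant τ

/-- the archimedean term `- log (|Δ(τ)| (Im τ) ^ 6)` of the Faltings height -/
noncomputable def arch (τ : UpperHalfPlane) : ℝ :=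
  -Real.log (‖ModularForm.discriminant τ‖ * τ.im ^ 6)

/-- `W(ℂ)` is isomorphic to `ℂ / (ℤ + ℤ τ)`: `j(τ) = c₄³ / Δ` is the invariant of `W` -/
def IsPeriod (W : WeierstrassCurve ℤ) (τ : UpperHalfPlane) : Prop :=
  jInv τ = (((W.c₄ : ℚ) ^ 3 / W.Δ : ℚ) : ℂ)

/-- Silverman's formula for the stable Faltings height of a semistable elliptic curve over `ℚ` with
the minimal equation `W` and the period `τ`, up to an additive constant which depends on the
normalisation of the metric only -/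
noncomputable def faltings (W : WeierstrassCurve ℤ) (τ : UpperHalfPlane) : ℝ :=
  (Real.log (|W.Δ| : ℤ) + arch τ) / 12

/-- the invariants `(c₄, c₆)` of the integral Weierstrass curves with `Δ ≠ 0` and `gcd(c₄, Δ) = 1`
(these are the minimal models of the semistable elliptic curves over `ℚ`, each curve is given by
exactly one pair) with `h_F ≤ log B` -/
def Curves (B : ℝ) : Set (ℤ × ℤ) :=
  {q | ∃ (W : WeierstrassCurve ℤ) (τ : UpperHalfPlane), W.Δ ≠ 0 ∧ IsCoprime W.c₄ W.Δ ∧
    q = (W.c₄, W.c₆) ∧ IsPeriod W τ ∧ faltings W τ ≤ Real.log B}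

/-- those with `lam * log N + c < h_F` -/
def Violators (lam c B : ℝ) : Set (ℤ × ℤ) :=
  {q | ∃ (W : WeierstrassCurve ℤ) (τ : UpperHalfPlane), W.Δ ≠ 0 ∧ IsCoprime W.c₄ W.Δ ∧
    q = (W.c₄, W.c₆) ∧ IsPeriod W τ ∧ faltings W τ ≤ Real.log B ∧
    lam * Real.log (conductor W : ℝ) + c < faltings W τ}

/-- **Theorem.**  For all `B ≥ 1` the sets are finite, every curve has a period, and there are
`B ^ (10 + o(1))` semistable curves with `h_F ≤ log B`.
(1) For `1 / 12 ≤ lam ≤ 1 / 10` and every `c`, `B ^ (1 / lam - 2 + o(1))` of them violate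
`h_F ≤ lam * log N + c`.  (2) For `1 / 12 ≤ lam < 1 / 2` at least `B ^ (1 / lam - 2 - ε)` of them do, for
all large `B`.  (3) For `lam ≥ 1 / 10` at most `C B ^ (8 + ε)` of them do. -/
theorem result :
    (∀ W : WeierstrassCurve ℤ, ∃ τ, IsPeriod W τ) ∧
    (∀ B : ℝ, 1 ≤ B → (Curves B).Finite) ∧
    Tendsto (fun B : ℝ => Real.log ((Curves B).ncard : ℝ) / Real.log B) atTop (𝓝 10) ∧
    (∀ lam c : ℝ, 1 / 12 ≤ lam → lam ≤ 1 / 10 →
      Tendsto (fun B : ℝ => Real.log ((Violators lam c B).ncard : ℝ) / Real.log B) atTop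
        (𝓝 (1 / lam - 2))) ∧
    (∀ lam c ε : ℝ, 1 / 12 ≤ lam → lam < 1 / 2 → 0 < ε → ∃ B₀ : ℝ, ∀ B : ℝ, B₀ ≤ B →
      B ^ (1 / lam - 2 - ε) ≤ ((Violators lam c B).ncard : ℝ)) ∧
    (∀ lam c ε : ℝ, 1 / 10 ≤ lam → 0 < ε → ∃ C : ℝ, 0 < C ∧ ∀ B : ℝ, 1 ≤ B →
      ((Violators lam c B).ncard : ℝ) ≤ C * B ^ (8 + ε)) := by
  have hfin : ∀ B : ℝ, 1 ≤ B → (Curves B).Finite := fun B hB => Pool.Agent.X12.Szp.SH_finite hB
  have hlow : ∀ lam c ε : ℝ, 1 / 12 ≤ lam → lam < 1 / 2 → 0 < ε → ∃ B₀ : ℝ, ∀ B : ℝ, B₀ ≤ B →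
      B ^ (1 / lam - 2 - ε) ≤ ((Violators lam c B).ncard : ℝ) :=
    fun lam c ε h1 h2 h3 => Pool.Agent.X12.Szp.VH_lower lam c ε h1 h2 h3
  have hup : ∀ lam c ε : ℝ, 0 < lam → 0 < ε → ∃ C : ℝ, 0 < C ∧ ∀ B : ℝ, 1 ≤ B →
      ((Violators lam c B).ncard : ℝ) ≤ C * B ^ (2 * max (1 / (2 * lam) - 1) 4 + ε) :=
    fun lam c ε h1 h2 => Pool.Agent.X12.Szp.VH_upper lam c ε h1 h2
  refine ⟨Pool.Agent.Y679.Fh.ex_P, hfin, ?_, fun lam c h1 h2 => ?_, hlow, fun lam c ε h1 h2 => ?_⟩
  · refine Pool.Agent.X12.Szp.tendsto_of_bounds _ _ (fun ε hε => ?_)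
      fun ε hε => Pool.Agent.X12.Szp.SH_card ε hε
    obtain ⟨B0, h⟩ := hlow (1 / 12) 0 ε le_rfl (by norm_num) hε
    refine ⟨max B0 1, fun B hB => ?_⟩
    have h1 := h B ((le_max_left _ _).trans hB)
    have e1 : (1 : ℝ) / (1 / 12) - 2 - ε = 10 - ε := by norm_num
    rw [e1] at h1
    refine h1.trans ?_
    have h2 : Violators (1 / 12) 0 B ⊆ Curves B := by
      rintro q ⟨W, τ, k0, k1, k2, k3, k4, -⟩
      exact ⟨W, τ, k0, k1, k2, k3, k4⟩
    exact_mod_cast Set.ncard_le_ncard h2 (hfin B ((le_max_right _ _).trans hB))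
  · have hl0 : 0 < lam := by linarith
    refine Pool.Agent.X12.Szp.tendsto_of_bounds _ _ (fun ε hε => hlow lam c ε h1 (by linarith) hε)
      fun ε hε => ?_
    obtain ⟨C, hC, h⟩ := hup lam c ε hl0 hε
    refine ⟨C, hC, fun B hB => (h B hB).trans (le_of_eq ?_)⟩
    have h4 : 4 ≤ 1 / (2 * lam) - 1 := by
      rw [le_sub_iff_add_le, le_div_iff₀ (by positivity)]
      linarith
    rw [max_eq_left h4]
    congr 2
    field_simp
  · obtain ⟨C, hC, h⟩ := hup lam c ε (by linarith) h2
    refine ⟨C, hC, fun B hB => (h B hB).trans (le_of_eq ?_)⟩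
    have hl0 : 0 < lam := by linarith
    have h4 : 1 / (2 * lam) - 1 ≤ 4 := by
      rw [sub_le_iff_le_add, div_le_iff₀ (by positivity)]
      linarith
    rw [max_eq_right h4]
    congr 2
    norm_num

end Pool.Agent.Results.MP_c59389_nt.AllSemistableByHeight
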