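import Pool.Agent.X39.Win.Ell
import Pool.Agent.X12.Szp17
import Pool.Agent.X12.Szp18
import Pool.Agent.X12.Szp20

/-!
# Frey's height inequality for ALL elliptic curves over `ℚ` in small boxes

Frey's inequality for `n = 1` says `h_F(E) ≤ (1 / 2 + ε) log N_E + c`, `h_F` the stable Faltings height.
Let `v ≥ 1` be a sequence with exponent of convergence at most `τ` (for `v_n = n ^ k` this is `1 / k`,
for `v_n = b ^ n` it is `0`) and `lam > 1 / 12`. For almost all points `(α, β)` of the plane, for all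
large `n`, ALL elliptic curves `y² = x³ - a x - b` over `ℚ` (minimal models, arbitrary reduction) in the
boxes `|a - α v_n ^ 2| ≤ v_n ^ θ₁`, `|b - β v_n ^ 3| ≤ v_n ^ θ₂` satisfy `h_F ≤ lam log N + c`, if
`θ₁ + θ₂ + τ` is less than `min (6 - 1 / (2 lam), 1)`.
-/

set_option autoImplicit false

open MeasureTheory

namespace Pool.Agent.Results.MP_c59389_nt.FreyInWindows

/-- the exponent of convergence of the sequence `v` is at most `τ` -/
def ExpLe (v : ℕ → ℝ) (τ : ℝ) : Prop := ∀ t : ℝ, τ < t → Summable (fun n : ℕ => (v n) ^ (-t))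

/-- the discriminant of `x³ - a x - b` -/
def Disc (a b : ℤ) : ℤ := 4 * a ^ 3 - 27 * b ^ 2

/-- `y² = x³ - a x - b` is an elliptic curve and `|Disc|` is least among the integral models
`y² = x³ - a' x - b'`, `a' = u⁴ a`, `b' = u⁶ b`, `u ∈ ℚ^×`. Every elliptic curve over `ℚ` has exactly
one such model. -/
def IsMinimal (a b : ℤ) : Prop :=
  Disc a b ≠ 0 ∧ ∀ (u : ℚ) (a' b' : ℤ), u ≠ 0 → (a' : ℚ) = u ^ 4 * a → (b' : ℚ) = u ^ 6 * b →
    |Disc a b| ≤ |Disc a' b'|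

/-- the prime-to-6 part of the conductor of a minimal model: the product over the primes `p ≥ 5`
dividing `Disc` of `p` (multiplicative reduction: `p ∤ a`) or `p²` (additive reduction: `p ∣ a`) -/
def Cond6 (a b : ℤ) : ℕ :=
  ∏ p ∈ (Disc a b).natAbs.primeFactors.filter (fun p => 5 ≤ p), if (p : ℤ) ∣ a then p ^ 2 else p

/-- the curve `y² = x³ - a x - b` over `ℚ`, `q = (a, b)` -/
def E (q : ℤ × ℤ) : WeierstrassCurve ℚ := ⟨0, 0, 0, -(q.1 : ℚ), -(q.2 : ℚ)⟩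

/-- the `j`-invariant `c₄³ / Δ` of `y² = x³ - a x - b`, `q = (a, b)` -/
def jE (q : ℤ × ℤ) : ℚ := (E q).c₄ ^ 3 / (E q).Δ

/-- the modular invariant `j(τ) = E₄(τ) ^ 3 / Δ(τ) = 1 / q + 744 + ⋯` -/
noncomputable def jInv (τ : UpperHalfPlane) : ℂ :=
  ModularForm.E₄ τ ^ 3 / ModularForm.discriminant τ

/-- the archimedean term `- log (|Δ(τ)| (Im τ) ^ 6)` of the Faltings height -/
noncomputable def arch (τ : UpperHalfPlane) : ℝ :=
  -Real.log (‖ModularForm.discriminant τ‖ * τ.im ^ 6)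

/-- `E(ℂ)` is isomorphic to `ℂ / (ℤ + ℤ τ)`: `j(τ) = j(E)` -/
def IsPeriod (q : ℤ × ℤ) (τ : UpperHalfPlane) : Prop := jInv τ = ((jE q : ℚ) : ℂ)

/-- Silverman's formula for the stable Faltings height (up to an additive constant which depends on the
normalisation only): `12 h_F(E)` is the logarithm of the denominator of `j(E)` plus the archimedean
term at a period `τ` of the curve. -/
noncomputable def stableHeight (q : ℤ × ℤ) (τ : UpperHalfPlane) : ℝ :=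
  (Real.log ((jE q).den : ℝ) + arch τ) / 12

/-- `(a, b)` is in the box `|a - α x ^ 2| ≤ x ^ θ₁`, `|b - β x ^ 3| ≤ x ^ θ₂`, `p = (α, β)` -/
def InBox (p : ℝ × ℝ) (x θ₁ θ₂ : ℝ) (q : ℤ × ℤ) : Prop :=
  |(q.1 : ℝ) - p.1 * x ^ 2| ≤ x ^ θ₁ ∧ |(q.2 : ℝ) - p.2 * x ^ 3| ≤ x ^ θ₂

/-- the denominator of `j` divides the minimal discriminant -/
lemma den_le {q : ℤ × ℤ} (hq : IsMinimal q.1 q.2) :
    (jE q).den ≤ Pool.Agent.X12.Szp.minD (Pool.Agent.X12.Szp.Eq' q) := by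
  have hne : {n : ℕ | ∃ (V : WeierstrassCurve ℤ) (C : WeierstrassCurve.VariableChange ℚ),
      C • Pool.Agent.X12.Szp.Eq' q = V.map (Int.castRingHom ℚ) ∧ n = V.Δ.natAbs}.Nonempty :=
    ⟨_, Pool.Agent.X12.Szp.Ez' q, 1, Pool.Agent.X12.Szp.Ez'_map q, rfl⟩
  obtain ⟨V, C, hC, hn⟩ := Nat.sInf_mem hne
  have hn' : Pool.Agent.X12.Szp.minD (Pool.Agent.X12.Szp.Eq' q) = V.Δ.natAbs := hn
  rw [hn']
  have hu : (C.u : ℚ) ≠ 0 := C.u.ne_zero
  have h4 : ((V.c₄ : ℤ) : ℚ) = ((C.u : ℚ)⁻¹) ^ 4 * (E q).c₄ := by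
    have h1 := congrArg WeierstrassCurve.c₄ hC
    rw [WeierstrassCurve.variableChange_c₄, WeierstrassCurve.map_c₄] at h1
    rw [← Units.val_inv_eq_inv_val]
    exact h1.symm
  have h12 : ((V.Δ : ℤ) : ℚ) = ((C.u : ℚ)⁻¹) ^ 12 * (E q).Δ := by
    have h1 := congrArg WeierstrassCurve.Δ hC
    rw [WeierstrassCurve.variableChange_Δ, WeierstrassCurve.map_Δ] at h1
    rw [← Units.val_inv_eq_inv_val]
    exact h1.symm
  have hD : (E q).Δ ≠ 0 := by
    have h1 : (E q).Δ = 16 * (Pool.Agent.X12.Szp.Dsc q.1 q.2 : ℤ) := Pool.Agent.X12.Szp.Eq'_disc q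
    rw [h1]
    have h2 : Pool.Agent.X12.Szp.Dsc q.1 q.2 ≠ 0 := hq.1
    exact mul_ne_zero (by norm_num) (by exact_mod_cast h2)
  have hV : V.Δ ≠ 0 := by
    intro h0
    rw [h0, Int.cast_zero] at h12
    rcases mul_eq_zero.1 h12.symm with h | h
    · exact absurd h (pow_ne_zero _ (inv_ne_zero hu))
    · exact hD h
  have hj : jE q = ((V.c₄ ^ 3 : ℤ) : ℚ) / ((V.Δ : ℤ) : ℚ) := by
    unfold jE
    push_cast
    rw [h4, h12]
    field_simp
  have hd : ((jE q).den : ℤ) ∣ V.Δ := by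
    rw [hj, ← Rat.divInt_eq_div]
    exact Rat.den_dvd _ _
  have h5 := Int.natAbs_dvd_natAbs.2 hd
  rw [Int.natAbs_natCast] at h5
  exact Nat.le_of_dvd (Int.natAbs_pos.2 hV) h5

/-- **Theorem.** Let `v ≥ 1` be a sequence with exponent of convergence at most `τ`, `lam > 1 / 12` (Frey's
inequality has `lam = 1 / 2 + ε`) and `τ + θ₁ + θ₂ < min (6 - 1 / (2 lam), 1)`. For almost all `(α, β)`
and each real `c`, for all large `n`, ALL elliptic curves over `ℚ` in the box around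
`(α v_n ^ 2, β v_n ^ 3)` with sides `2 v_n ^ θ₁`, `2 v_n ^ θ₂` satisfy `h_F ≤ lam log N + c`, `h_F` the
stable Faltings height and `N` the prime-to-6 part of the conductor. Every curve has a period. The
sequences `v_n = (n + 1) ^ k` and `v_n = b ^ n` have exponent of convergence at most `1 / k` and `0`. -/
theorem result :
    (∀ (v : ℕ → ℝ) (τ θ₁ θ₂ lam : ℝ), (∀ n, 1 ≤ v n) → ExpLe v τ → θ₁ ≤ 2 → θ₂ ≤ 3 → 1 / 12 < lam →
      τ + θ₁ + θ₂ < min (6 - 1 / (2 * lam)) 1 →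
      ∀ᵐ p : ℝ × ℝ, ∀ c : ℝ, ∃ n₀ : ℕ, ∀ n : ℕ, n₀ ≤ n → ∀ q : ℤ × ℤ,
        IsMinimal q.1 q.2 → InBox p (v n) θ₁ θ₂ q → ∀ z : UpperHalfPlane, IsPeriod q z →
          stableHeight q z ≤ lam * Real.log (Cond6 q.1 q.2 : ℝ) + c) ∧
    (∀ q : ℤ × ℤ, ∃ z, IsPeriod q z) ∧
    (∀ k : ℝ, 0 < k → ExpLe (fun n : ℕ => ((n : ℝ) + 1) ^ k) (1 / k)) ∧
    (∀ b : ℝ, 1 < b → ExpLe (fun n : ℕ => b ^ n) 0) := by
  refine ⟨?_, Pool.Agent.X12.Szp.ex_Pr, fun κ hκ => Pool.Agent.Y854.GM.expLe_pow κ hκ,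
    fun b hb => Pool.Agent.Y854.GM.expLe_geom b hb⟩
  intro v τ θ₁ θ₂ lam hv hE h1 h2 hlam hs
  have hlam0 : 0 < lam := by linarith
  have hs1 := hs.trans_le (min_le_left _ _)
  have hs2 := hs.trans_le (min_le_right _ _)
  have hk : ∀ k : ℕ, ∀ᵐ p : ℝ × ℝ, ∃ n₀ : ℕ, ∀ n : ℕ, n₀ ≤ n → ∀ q : ℤ × ℤ,
      IsMinimal q.1 q.2 → InBox p (v n) θ₁ θ₂ q → ∀ z : UpperHalfPlane, IsPeriod q z →
        stableHeight q z ≤ lam * Real.log (Cond6 q.1 q.2 : ℝ) + (-(k : ℝ)) := by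
    intro k
    have hT : Pool.Agent.X39.Win.Thin (Pool.Agent.X12.Szp.WS lam (-(k : ℝ)))
        (max (1 / (2 * lam) - 1) 4) := by
      intro ε hε
      obtain ⟨K, -, h⟩ := Pool.Agent.X12.Szp.WS_box lam (-(k : ℝ)) ε hlam0 hε
      exact ⟨K, h⟩
    have hsum : max (1 / (2 * lam) - 1) 4 + τ + θ₁ + θ₂ < 5 := by
      rcases max_choice (1 / (2 * lam) - 1) 4 with h | h <;> rw [h] <;> linarith
    filter_upwards [Pool.Agent.X39.Win.pairs _ hT hv hE h1 h2 hsum] with p hp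
    obtain ⟨n₀, hn⟩ := hp
    refine ⟨n₀, fun n hn1 q hq hb z hz => ?_⟩
    by_contra hcon
    push Not at hcon
    refine hn n hn1 q ⟨z, hq, hz, lt_of_lt_of_le hcon ?_⟩ hb
    have h3 : (0 : ℝ) < ((jE q).den : ℝ) := by exact_mod_cast (jE q).pos
    have h4 : ((jE q).den : ℝ) ≤
        ((Pool.Agent.X12.Szp.minD (Pool.Agent.X12.Szp.Eq' q) : ℕ) : ℝ) := by
      exact_mod_cast den_le hq
    have h5 := Real.log_le_log h3 h4
    have h6 : stableHeight q z = (Real.log ((jE q).den : ℝ) + arch z) / 12 := rfl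
    have h7 : Pool.Agent.X12.Szp.hE q z =
        (Real.log ((Pool.Agent.X12.Szp.minD (Pool.Agent.X12.Szp.Eq' q) : ℕ) : ℝ) + arch z) / 12 :=
      rfl
    rw [h6, h7]
    linarith
  filter_upwards [ae_all_iff.2 hk] with p hp c
  obtain ⟨k, hk⟩ := exists_nat_ge (-c)
  obtain ⟨n₀, hn⟩ := hp k
  refine ⟨n₀, fun n hn1 q hq hb z hz => (hn n hn1 q hq hb z hz).trans ?_⟩
  linarith

end Pool.Agent.Results.MP_c59389_nt.FreyInWindows
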