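import Pool.Agent.Results.MP_c59389_nt.AllEllipticCurves
import Pool.Agent.X123.ML.Base

/-!
# Frey's inequality for the elliptic curves with modular invariants near the points outside a small set

Let `s` be any map from the algebraic numbers to a metric space, for example an embedding into the complex numbers.
There is a function `a` with `a 1 = 5 / 2`, `a n ≤ max (5 / 2) (15 / 8 + expo n / 2)` for `n ≥ 2` and `a n = O (log ^ 2 n)`
such that for `n ≥ 1` and `κ, τ > 0` all points `z` outside a set of Hausdorff dimension at most `(a n) / κ / τ` have the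
following property: up to finitely many modular invariants, ALL elliptic curves `E` over ALL number fields `L` of degree
`n` whose modular invariant `j` satisfies `|z - s(j)| ≤ exp (- τ h)` satisfy Frey's inequality `h ≤ κ log N_A + c` for the
abelian variety `A = Res_{L/ℚ} E` of dimension `n`, where `h` is the stable Faltings height of `A`. Outside a set of
dimension ZERO, for all `n` and `τ > 0` some `κ` works.
-/

set_option autoImplicit false

open scoped ENNReal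

namespace Pool.Agent.Results.MP_c59389_nt.FreyNearTargets

open NumberField IsDedekindDomain
open AllEllipticCurves (faltings IsPeriod GoodAt badNorm Violators expo)
open Pool.Agent.X123.ML MeasureTheory

/-- the pairs `(L, j)`, `L` a number field of degree `n` (in the algebraic closure of `ℚ`), for which there is an elliptic
curve `E` over `L` with modular invariant `j` such that the stable Faltings height `h = n h_F(E)` of the abelian variety
`A = Res_{L/ℚ} E` satisfies `h > κ log N + c`, `N = |D_L| ^ 2 * badNorm E` (a divisor of the conductor of `A`), and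
`|z - s(j)| ≤ exp (- τ max (h, 0))` -/
def Close {M : Type} [MetricSpace M] (s : AlgebraicClosure ℚ → M) (n : ℕ) (κ τ c : ℝ) (z : M) :
    Set (IntermediateField ℚ (AlgebraicClosure ℚ) × AlgebraicClosure ℚ) :=
  {p | ∃ (_ : NumberField p.1) (E : WeierstrassCurve p.1) (π : InfinitePlace p.1 → UpperHalfPlane),
    Module.finrank ℚ p.1 = n ∧ E.Δ ≠ 0 ∧
    ((E.c₄ ^ 3 / E.Δ : p.1) : AlgebraicClosure ℚ) = p.2 ∧ IsPeriod (E.c₄ ^ 3 / E.Δ) π ∧
    κ * Real.log (badNorm E * |(discr p.1 : ℝ)| ^ 2) + c < (n : ℝ) * faltings (E.c₄ ^ 3 / E.Δ) π ∧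
    dist z (s p.2) ≤ Real.exp (-(τ * max ((n : ℝ) * faltings (E.c₄ ^ 3 / E.Δ) π) 0))}

/-- the violators with a bound for the height -/
def Has (n : ℕ) (κ c : ℝ) (p : IntermediateField ℚ (AlgebraicClosure ℚ) × AlgebraicClosure ℚ)
    (h : ℝ) : Prop :=
  ∃ (_ : NumberField p.1) (E : WeierstrassCurve p.1) (π : InfinitePlace p.1 → UpperHalfPlane),
    Module.finrank ℚ p.1 = n ∧ E.Δ ≠ 0 ∧
    ((E.c₄ ^ 3 / E.Δ : p.1) : AlgebraicClosure ℚ) = p.2 ∧
    IsPeriod (E.c₄ ^ 3 / E.Δ) π ∧ h = max ((n : ℝ) * faltings (E.c₄ ^ 3 / E.Δ) π) 0 ∧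
    κ * Real.log (badNorm E * |(discr p.1 : ℝ)| ^ 2) + c < (n : ℝ) * faltings (E.c₄ ^ 3 / E.Δ) π

/-- all violators -/
def All (n : ℕ) (κ c : ℝ) : Set (IntermediateField ℚ (AlgebraicClosure ℚ) × AlgebraicClosure ℚ) :=
  {p | ∃ h, Has n κ c p h}

/-- the smallest height of a violator -/
noncomputable def wt (n : ℕ) (κ c : ℝ)
    (p : IntermediateField ℚ (AlgebraicClosure ℚ) × AlgebraicClosure ℚ) : ℝ :=
  sInf {h | Has n κ c p h}

lemma has_nonneg {n : ℕ} {κ c : ℝ}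
    {p : IntermediateField ℚ (AlgebraicClosure ℚ) × AlgebraicClosure ℚ} {h : ℝ}
    (hh : Has n κ c p h) : 0 ≤ h := by
  obtain ⟨_, E, π, -, -, -, -, h5, -⟩ := hh
  rw [h5]
  exact le_max_right _ _

lemma wt_nonneg (n : ℕ) (κ c : ℝ)
    (p : IntermediateField ℚ (AlgebraicClosure ℚ) × AlgebraicClosure ℚ) : 0 ≤ wt n κ c p :=
  Real.sInf_nonneg fun _ hh => has_nonneg hh

lemma wt_le {n : ℕ} {κ c : ℝ}
    {p : IntermediateField ℚ (AlgebraicClosure ℚ) × AlgebraicClosure ℚ} {h : ℝ}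
    (hh : Has n κ c p h) : wt n κ c p ≤ h :=
  csInf_le ⟨0, fun _ h' => has_nonneg h'⟩ hh

lemma cnt {n : ℕ} {κ c e : ℝ}
    (H : ∀ δ : ℝ, 0 < δ → ∃ M : ℝ, ∀ B : ℝ, 1 ≤ B → (Violators n κ c B).Finite ∧
      ((Violators n κ c B).ncard : ℝ) ≤ M * B ^ (e + δ)) :
    Cnt (All n κ c) (wt n κ c) e := by
  intro δ hδ
  obtain ⟨M, hM⟩ := H δ hδ
  refine ⟨|M| * Real.exp (e + δ), fun t ht => ?_⟩
  obtain ⟨hfin, hcard⟩ := hM (Real.exp (t + 1)) (Real.one_le_exp (by linarith))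
  have hsub : {p | p ∈ All n κ c ∧ wt n κ c p ≤ t} ⊆ Violators n κ c (Real.exp (t + 1)) := by
    rintro p ⟨⟨h0, hh0⟩, hwt⟩
    obtain ⟨h, hh, hlt⟩ := exists_lt_of_csInf_lt (s := {h | Has n κ c p h}) ⟨h0, hh0⟩
      (lt_of_le_of_lt hwt (by linarith : t < t + 1))
    obtain ⟨h1, E, π, h2, h3, h4, h5, h6, h7⟩ := hh
    refine ⟨h1, E, π, h2, h3, h4, h5, ?_, h7⟩
    rw [Real.log_exp]
    have := le_max_left ((n : ℝ) * faltings (E.c₄ ^ 3 / E.Δ) π) 0
    linarith
  refine ⟨hfin.subset hsub, ?_⟩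
  calc (({p | p ∈ All n κ c ∧ wt n κ c p ≤ t}.ncard : ℕ) : ℝ)
      ≤ ((Violators n κ c (Real.exp (t + 1))).ncard : ℝ) := by
        exact_mod_cast Set.ncard_le_ncard hsub hfin
    _ ≤ M * Real.exp (t + 1) ^ (e + δ) := hcard
    _ ≤ |M| * Real.exp (t + 1) ^ (e + δ) :=
        mul_le_mul_of_nonneg_right (le_abs_self M) (by positivity)
    _ = |M| * Real.exp (e + δ) * Real.exp ((e + δ) * t) := by
        rw [← Real.exp_mul, mul_assoc, ← Real.exp_add]
        congr 2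
        ring

lemma close_sub {M : Type} [MetricSpace M] (s : AlgebraicClosure ℚ → M) (n : ℕ) (κ c c' : ℝ)
    {τ τ' : ℝ} (z : M) (hc : c' ≤ c) (hτ : 0 ≤ τ') (hττ : τ' ≤ τ) :
    Close s n κ τ c z ⊆
      {p | p ∈ All n κ c' ∧ dist z (s p.2) ≤ Real.exp (-(τ' * wt n κ c' p))} := by
  rintro p ⟨h1, E, π, h2, h3, h4, h5, h6, h7⟩
  have hh : Has n κ c' p (max ((n : ℝ) * faltings (E.c₄ ^ 3 / E.Δ) π) 0) :=
    ⟨h1, E, π, h2, h3, h4, h5, rfl, by linarith⟩
  refine ⟨⟨_, hh⟩, h7.trans (Real.exp_le_exp.2 ?_)⟩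
  have h8 := wt_le hh
  have h9 := mul_le_mul_of_nonneg_left h8 hτ
  have h10 := mul_le_mul_of_nonneg_right hττ (has_nonneg hh)
  linarith

/-- **Theorem.** There is a function `a ≥ 0` with `a 1 = 5 / 2`, `a n ≤ max (5 / 2) (15 / 8 + expo n / 2)` for `n ≥ 2` and
`a n = O (log ^ 2 n)` such that for every map `s` from the algebraic numbers to a metric space: (1) For `n ≥ 1` and
`κ, τ > 0` there is a set `F` of Hausdorff dimension at most `(a n) / κ / τ` such that for each `z` outside `F` and each `c`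
only finitely many pairs `(L, j)` belong to `Close s n κ τ c z`: up to finitely many modular invariants, ALL elliptic
curves `E` over ALL number fields `L` of degree `n` with `|z - s(j)| ≤ exp (- τ max (h, 0))` satisfy `h ≤ κ log N + c`,
where `h` is the stable Faltings height of `A = Res_{L/ℚ} E` and `N = |D_L| ^ 2 * badNorm E`, a divisor of the conductor of
`A`. (2) There is a set `F` of Hausdorff dimension zero such that for each `z` outside `F`, ALL `n ≥ 1` and `τ > 0` there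
is `κ` such that this is true (with `c = 0`). (3) If `a n < 2 κ τ` and `s` is a map to the complex numbers, the property of
(1) holds for almost all complex `z`. -/
theorem result : ∃ a : ℕ → ℝ, (∀ n, 0 ≤ a n) ∧ a 1 = 5 / 2 ∧
    (∀ n : ℕ, 2 ≤ n → a n ≤ max (5 / 2) (15 / 8 + expo n / 2)) ∧
    (∀ c : ℝ, 1 / (16 * (Real.log 2) ^ 2) < c →
      ∀ᶠ n : ℕ in Filter.atTop, a n ≤ c * (Real.log n) ^ 2) ∧
    (∀ (M : Type) [MetricSpace M] (s : AlgebraicClosure ℚ → M),
      (∀ n : ℕ, 1 ≤ n → ∀ κ τ : ℝ, 0 < κ → 0 < τ →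
        ∃ F : Set M, dimH F ≤ ENNReal.ofReal (a n / κ / τ) ∧
          ∀ z : M, z ∉ F → ∀ c : ℝ, (Close s n κ τ c z).Finite) ∧
      ∃ F : Set M, dimH F = 0 ∧ ∀ z : M, z ∉ F → ∀ n : ℕ, 1 ≤ n → ∀ τ : ℝ, 0 < τ →
        ∃ κ : ℝ, 0 < κ ∧ (Close s n κ τ 0 z).Finite) ∧
    ∀ (s : AlgebraicClosure ℚ → ℂ) (n : ℕ), 1 ≤ n → ∀ κ τ : ℝ, 0 < κ → 0 < τ →
      a n < 2 * κ * τ → ∀ᵐ z : ℂ, ∀ c : ℝ, (Close s n κ τ c z).Finite := by
  obtain ⟨a, ha1, ha2, ha3, ha4⟩ := AllEllipticCurves.result.1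
  have hcnt : ∀ n : ℕ, 1 ≤ n → ∀ κ c : ℝ, 0 < κ →
      Cnt (All n κ c) (wt n κ c) (max (a n) 0 / κ) := by
    intro n hn κ c hκ
    apply cnt
    intro δ hδ
    obtain ⟨M, hM⟩ := ha4 n hn κ c δ hκ hδ
    refine ⟨|M|, fun B hB => ⟨(hM B hB).1, (hM B hB).2.trans ?_⟩⟩
    have hB0 : 0 < B := by linarith
    refine (mul_le_mul_of_nonneg_right (le_abs_self M) (Real.rpow_nonneg hB0.le _)).trans ?_
    apply mul_le_mul_of_nonneg_left _ (abs_nonneg M)
    apply Real.rpow_le_rpow_of_exponent_le hB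
    have h1 : a n / κ ≤ max (a n) 0 / κ :=
      div_le_div_of_nonneg_right (le_max_left _ _) hκ.le
    linarith
  have main1 : ∀ (M : Type) [MetricSpace M] (s : AlgebraicClosure ℚ → M) (n : ℕ), 1 ≤ n →
      ∀ κ τ : ℝ, 0 < κ → 0 < τ →
        ∃ F : Set M, dimH F ≤ ENNReal.ofReal (max (a n) 0 / κ / τ) ∧
          ∀ z : M, z ∉ F → ∀ c : ℝ, (Close s n κ τ c z).Finite := by
    intro M _ s n hn κ τ hκ hτ
    refine ⟨⋃ k : ℕ, {z : M | {p | p ∈ All n κ (-(k : ℝ)) ∧ dist z (s p.2) ≤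
      Real.exp (-(τ * wt n κ (-(k : ℝ)) p))}.Infinite}, ?_, fun z hz c => ?_⟩
    · rw [dimH_iUnion]
      exact iSup_le fun k => dim_le (All n κ (-(k : ℝ))) (wt n κ (-(k : ℝ)))
        (fun p _ => wt_nonneg _ _ _ p) (by positivity) hτ (hcnt n hn κ _ hκ) (fun p => s p.2)
    · rw [Set.mem_iUnion] at hz
      push Not at hz
      obtain ⟨k, hk⟩ := exists_nat_ge (-c)
      have h1 := hz k
      rw [Set.mem_ofPred_eq, Set.not_infinite] at h1
      exact h1.subset (close_sub s n κ c _ z (by linarith) hτ.le le_rfl)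
  have hmax : max (5 / 2 : ℝ) 0 = 5 / 2 := max_eq_left (by norm_num)
  refine ⟨fun n => max (a n) 0, fun n => le_max_right _ _, ?_, fun n hn => ?_, fun c hc => ?_,
    fun M _ s => ⟨main1 M s, ?_⟩, fun s n hn κ τ hκ hτ hlt => ?_⟩
  · show max (a 1) 0 = 5 / 2
    rw [ha2, hmax]
  · exact max_le (ha3 n hn) (le_trans (by norm_num) (le_max_left _ _))
  · have hc0 : 0 < c := lt_trans (by
      have := Real.log_pos (by norm_num : (1 : ℝ) < 2)
      positivity) hc
    filter_upwards [ha1 c hc] with n hn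
    exact max_le hn (by positivity)
  · obtain ⟨κ, hκ⟩ : ∃ κ : ℕ → ℕ → ℝ, ∀ k n, κ k n =
        (max (a n) 0 + 1) * ((k : ℝ) + 1) ^ 2 := ⟨_, fun _ _ => rfl⟩
    have hκ0 : ∀ k n, 0 < κ k n := fun k n => by
      rw [hκ]
      positivity
    obtain ⟨F, hF, hF2⟩ := levels (fun (k : ℕ) (n : ℕ) => {z : M | {p | p ∈ All (n + 1)
        (κ k (n + 1)) 0 ∧ dist z (s p.2) ≤
          Real.exp (-(1 / ((k : ℝ) + 1) * wt (n + 1) (κ k (n + 1)) 0 p))}.Infinite})
        (fun k n => by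
      have h1 := hκ0 k (n + 1)
      refine (dim_le (All (n + 1) (κ k (n + 1)) 0) (wt (n + 1) (κ k (n + 1)) 0)
        (fun p _ => wt_nonneg _ _ _ p) (by positivity) (by positivity)
        (hcnt (n + 1) (by omega) (κ k (n + 1)) 0 (hκ0 _ _)) (fun p => s p.2)).trans
        (ENNReal.ofReal_le_ofReal ?_)
      rw [div_div, div_le_div_iff₀ (by positivity) (by positivity), hκ]
      obtain ⟨b, hb⟩ : ∃ b : ℝ, b = max (a (n + 1)) 0 := ⟨_, rfl⟩
      have hb0 : 0 ≤ b := by rw [hb]; exact le_max_right _ _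
      rw [← hb]
      have h2 : (0 : ℝ) < (k : ℝ) + 1 := by positivity
      have h3 : 1 * ((b + 1) * ((k : ℝ) + 1) ^ 2 * (1 / ((k : ℝ) + 1))) =
          (b + 1) * ((k : ℝ) + 1) := by
        field_simp
      rw [h3]
      nlinarith)
    refine ⟨F, hF, fun z hz n hn τ hτ => ?_⟩
    obtain ⟨J, hJ⟩ := hF2 z hz
    obtain ⟨k₀, hk₀⟩ := exists_nat_one_div_lt hτ
    obtain ⟨k, hk⟩ : ∃ k : ℕ, k = max J k₀ := ⟨_, rfl⟩
    obtain ⟨m, rfl⟩ := Nat.exists_eq_add_of_le' hn
    have h1 := hJ k (by rw [hk]; exact le_max_left _ _) m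
    rw [Set.mem_ofPred_eq, Set.not_infinite] at h1
    refine ⟨κ k (m + 1), hκ0 _ _, h1.subset (close_sub s (m + 1) _ 0 0 z le_rfl (by positivity) ?_)⟩
    have h5 : 1 / ((k : ℝ) + 1) ≤ 1 / ((k₀ : ℝ) + 1) := by
      apply one_div_le_one_div_of_le (by positivity)
      have : (k₀ : ℝ) ≤ (k : ℝ) := by rw [hk]; exact_mod_cast le_max_right _ _
      linarith
    linarith
  · obtain ⟨F, hF, hF2⟩ := main1 ℂ s n hn κ τ hκ hτ
    have h3 : volume F = 0 := null_complex (by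
      rw [div_div, div_lt_iff₀ (by positivity)]
      linarith) hF
    filter_upwards [measure_eq_zero_iff_ae_notMem.1 h3] with z hz
    exact hF2 z hz

end Pool.Agent.Results.MP_c59389_nt.FreyNearTargets
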